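import Pool.Agent.helper96.PP2.SpecA

set_option autoImplicit false

namespace Pool.Agent.PP2

open Topology Matrix

private theorem CLS_tube {K A : Type} [Group K] [TopologicalSpace K] [IsTopologicalGroup K]
    [CompactSpace K] {F : K → A} (hF : IsLocallyConstant F) :
    ∃ W : Set K, IsOpen W ∧ (1 : K) ∈ W ∧ ∀ x, ∀ w ∈ W, F (x * w) = F x := by
  have h1 : IsOpen {q : K × K | F (q.1 * q.2) = F q.1} := by
    have h2 : IsLocallyConstant (fun q : K × K => (F (q.1 * q.2), F q.1)) :=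
      (hF.comp_continuous continuous_mul).prodMk (hF.comp_continuous continuous_fst)
    exact h2 {z | z.1 = z.2}
  obtain ⟨u, v, hu, hv, hu', hv', huv⟩ := generalized_tube_lemma (isCompact_univ (X := K))
    (isCompact_singleton (x := (1 : K))) h1 (by
      rintro ⟨x, y⟩ ⟨-, hy⟩
      rw [Set.mem_singleton_iff] at hy
      subst hy
      simp)
  refine ⟨v, hv, hv' rfl, fun x w hw => ?_⟩
  have h3 : (x, w) ∈ {q : K × K | F (q.1 * q.2) = F q.1} := huv ⟨hu' (Set.mem_univ x), hw⟩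
  exact h3

/-- the action through a section -/
@[reducible] private def CLS_act {U H A : Type} [Group U] [Group H] [AddCommGroup A]
    [DistribMulAction H A] (r : U → H) (h1 : ∀ a : A, r 1 • a = a)
    (h2 : ∀ (u v : U) (a : A), r (u * v) • a = r u • r v • a) : DistribMulAction U A where
  smul u a := r u • a
  one_smul := h1
  mul_smul := h2
  smul_zero u := smul_zero (r u)
  smul_add u := smul_add (r u)

theorem CLS_row (hOPN : OPN_stmt) : CLS_stmt := by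
  classical
  intro p G _ _ _ _ _ _ hp hG H hH A _ _ hA hcard hsm f hf hf3
  have : CompactSpace H := isCompact_iff_compactSpace.1 hH.isCompact
  -- the kernel of the action
  have hK0 : IsOpen {h : H | ∀ a : A, h • a = a} := by
    have e : {h : H | ∀ a : A, h • a = a} = ⋂ a : A, {h : H | h • a = a} := by
      ext h
      simp
    rw [e]
    exact isOpen_iInter_of_finite fun a => hsm a
  -- uniform local constancy
  obtain ⟨W, hW, hW1, hWf⟩ := CLS_tube (K := H × H × H) hf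
  have hWn : W ∈ 𝓝 ((1 : H), (1 : H), (1 : H)) := hW.mem_nhds hW1
  rw [mem_nhds_prod_iff] at hWn
  obtain ⟨W1, hW1n, W', hW'n, hW1W⟩ := hWn
  rw [mem_nhds_prod_iff] at hW'n
  obtain ⟨W2, hW2n, W3, hW3n, hW23⟩ := hW'n
  have hK : {h : H | ∀ a : A, h • a = a} ∈ 𝓝 (1 : H) := hK0.mem_nhds (fun a => one_smul H a)
  have hV : ({h : H | ∀ a : A, h • a = a} ∩ (W1 ∩ (W2 ∩ W3))) ∈ 𝓝 (1 : H) :=
    Filter.inter_mem hK (Filter.inter_mem hW1n (Filter.inter_mem hW2n hW3n))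
  rw [nhds_subtype_eq_comap, Filter.mem_comap] at hV
  obtain ⟨V, hVn, hVsub⟩ := hV
  obtain ⟨V', hV'V, hV'o, hV'1⟩ := mem_nhds_iff.1 hVn
  obtain ⟨N, hN⟩ := ProfiniteGrp.exist_openNormalSubgroup_sub_open_nhds_of_one hV'o hV'1
  have hNn : ∀ n ∈ N, ∀ g : G, g * n * g⁻¹ ∈ N := fun n hn g => N.isNormal'.conj_mem n hn g
  have hNo : IsOpen (N : Set G) := N.isOpen'
  -- elements of `N` in `H`
  have hNH : ∀ h : H, (h : G) ∈ N → (∀ a : A, h • a = a) ∧ h ∈ W1 ∧ h ∈ W2 ∧ h ∈ W3 := by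
    intro h hh
    have h1 : h ∈ Subtype.val ⁻¹' V := hV'V (hN hh)
    have h2 := hVsub h1
    exact ⟨h2.1, h2.2.1, h2.2.2.1, h2.2.2.2⟩
  -- the group `U`
  set U : Subgroup G := H ⊔ (N : Subgroup G) with hU
  have hHU : ∀ h : H, (h : G) ∈ U := fun h => Subgroup.mem_sup_left h.2
  have hUo : IsOpen (U : Set G) := by
    refine Subgroup.isOpen_mono (H₁ := (N : Subgroup G)) le_sup_right ?_
    exact hNo
  have hdec : ∀ u : U, ∃ h : H, (h : G)⁻¹ * (u : G) ∈ N := by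
    intro u
    have h1 : (u : G) ∈ ((H ⊔ (N : Subgroup G) : Subgroup G) : Set G) := u.2
    have : (N : Subgroup G).Normal := N.isNormal'
    rw [Subgroup.mul_normal] at h1
    obtain ⟨h, hh, n, hn, hu⟩ := h1
    refine ⟨⟨h, hh⟩, ?_⟩
    have hu' : h * n = (u : G) := hu
    rw [← hu']
    change h⁻¹ * (h * n) ∈ N
    rw [inv_mul_cancel_left]
    exact hn
  choose r hr using hdec
  -- the relation
  have rel_act : ∀ (h h' : H) (u : U), (h : G)⁻¹ * (u : G) ∈ N → (h' : G)⁻¹ * (u : G) ∈ N →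
      ((h⁻¹ * h' : H) : G) ∈ N := by
    intro h h' u h1 h2
    have h3 := N.mul_mem h1 (N.inv_mem h2)
    have e : ((h : G)⁻¹ * (u : G)) * ((h' : G)⁻¹ * (u : G))⁻¹ = ((h⁻¹ * h' : H) : G) := by
      push_cast
      group
    rwa [e] at h3
  have hact : ∀ (h h' : H) (u : U), (h : G)⁻¹ * (u : G) ∈ N → (h' : G)⁻¹ * (u : G) ∈ N →
      ∀ a : A, h • a = h' • a := by
    intro h h' u h1 h2 a
    have h3 := (hNH _ (rel_act h h' u h1 h2)).1 a
    rw [mul_smul, inv_smul_eq_iff] at h3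
    exact h3.symm
  have hfun : ∀ (h1 h1' h2 h2' h3 h3' : H) (u1 u2 u3 : U), (h1 : G)⁻¹ * (u1 : G) ∈ N →
      (h1' : G)⁻¹ * (u1 : G) ∈ N → (h2 : G)⁻¹ * (u2 : G) ∈ N → (h2' : G)⁻¹ * (u2 : G) ∈ N →
      (h3 : G)⁻¹ * (u3 : G) ∈ N → (h3' : G)⁻¹ * (u3 : G) ∈ N → f h1 h2 h3 = f h1' h2' h3' := by
    intro h1 h1' h2 h2' h3 h3' u1 u2 u3 k1 k1' k2 k2' k3 k3'
    have m1 := (hNH _ (rel_act h1 h1' u1 k1 k1')).2.1
    have m2 := (hNH _ (rel_act h2 h2' u2 k2 k2')).2.2.1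
    have m3 := (hNH _ (rel_act h3 h3' u3 k3 k3')).2.2.2
    have h4 := hWf (h1, h2, h3) (h1⁻¹ * h1', h2⁻¹ * h2', h3⁻¹ * h3')
      (hW1W ⟨m1, hW23 ⟨m2, m3⟩⟩)
    simp only [Prod.mk_mul_mk, mul_inv_cancel_left] at h4
    exact h4.symm
  have rel_mul : ∀ (h h' : H) (u u' : U), (h : G)⁻¹ * (u : G) ∈ N → (h' : G)⁻¹ * (u' : G) ∈ N →
      ((h * h' : H) : G)⁻¹ * ((u * u' : U) : G) ∈ N := by
    intro h h' u u' h1 h2
    have h3 := N.mul_mem (hNn _ h1 ((h' : G)⁻¹)) h2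
    have e : (h' : G)⁻¹ * ((h : G)⁻¹ * (u : G)) * ((h' : G)⁻¹)⁻¹ * ((h' : G)⁻¹ * (u' : G)) =
        ((h * h' : H) : G)⁻¹ * ((u * u' : U) : G) := by
      push_cast
      group
    rwa [e] at h3
  have rel_self : ∀ h : H, (h : G)⁻¹ * ((⟨h, hHU h⟩ : U) : G) ∈ N := by
    intro h
    change (h : G)⁻¹ * (h : G) ∈ N
    rw [inv_mul_cancel]
    exact N.one_mem
  have rel_one : ((1 : H) : G)⁻¹ * ((1 : U) : G) ∈ N := by
    push_cast
    rw [inv_one, one_mul]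
    exact N.one_mem
  -- the action
  let inst : DistribMulAction U A := CLS_act r
    (fun a => by
      rw [hact (r 1) 1 1 (hr 1) rel_one a, one_smul])
    (fun u v a => by
      rw [hact (r (u * v)) (r u * r v) (u * v) (hr _) (rel_mul _ _ _ _ (hr u) (hr v)) a, mul_smul])
  have hsmul : ∀ (u : U) (a : A), u • a = r u • a := fun u a => rfl
  -- neighbourhoods
  have hnb : ∀ u : U, IsOpen {u' : U | (u : G)⁻¹ * (u' : G) ∈ N} := by
    intro u
    exact hNo.preimage (by fun_prop)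
  have hrr : ∀ u u' : U, (u : G)⁻¹ * (u' : G) ∈ N → ((r u : H) : G)⁻¹ * (u' : G) ∈ N := by
    intro u u' h
    have h3 := N.mul_mem (hr u) h
    have e : ((r u : H) : G)⁻¹ * (u : G) * ((u : G)⁻¹ * (u' : G)) = ((r u : H) : G)⁻¹ * (u' : G) := by
      group
    rwa [e] at h3
  have hself : ∀ u : U, (u : G)⁻¹ * (u : G) ∈ N := by
    intro u
    rw [inv_mul_cancel]
    exact N.one_mem
  have hsmU : Smooth U A := by
    intro a
    rw [isOpen_iff_forall_mem_open]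
    intro u hu
    refine ⟨{u' : U | (u : G)⁻¹ * (u' : G) ∈ N}, ?_, hnb u, hself u⟩
    intro u' hu'
    change r u' • a = a
    have hu2 : r u • a = a := hu
    rw [hact (r u') (r u) u' (hr u') (hrr u u' hu') a]
    exact hu2
  have hLC : LC3 (fun u1 u2 u3 : U => f (r u1) (r u2) (r u3)) := by
    unfold LC3
    rw [IsLocallyConstant.iff_exists_open]
    rintro ⟨u1, u2, u3⟩
    refine ⟨{u' : U | (u1 : G)⁻¹ * (u' : G) ∈ N} ×ˢ
      ({u' : U | (u2 : G)⁻¹ * (u' : G) ∈ N} ×ˢ {u' : U | (u3 : G)⁻¹ * (u' : G) ∈ N}),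
      (hnb u1).prod ((hnb u2).prod (hnb u3)), ⟨hself u1, hself u2, hself u3⟩, ?_⟩
    rintro ⟨v1, v2, v3⟩ ⟨k1, k2, k3⟩
    exact hfun _ _ _ _ _ _ v1 v2 v3 (hr v1) (hrr u1 v1 k1) (hr v2) (hrr u2 v2 k2) (hr v3)
      (hrr u3 v3 k3)
  have hcoc : ∀ a b c d : U, d3 (fun u1 u2 u3 : U => f (r u1) (r u2) (r u3)) a b c d = 0 := by
    intro a b c d
    have h0 := hf3 (r a) (r b) (r c) (r d)
    unfold d3 at h0 ⊢
    beta_reduce
    rw [hsmul]
    rw [hfun (r (a * b)) (r a * r b) (r c) (r c) (r d) (r d) (a * b) c d (hr _)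
      (rel_mul _ _ _ _ (hr a) (hr b)) (hr c) (hr c) (hr d) (hr d)]
    rw [hfun (r a) (r a) (r (b * c)) (r b * r c) (r d) (r d) a (b * c) d (hr a) (hr a) (hr _)
      (rel_mul _ _ _ _ (hr b) (hr c)) (hr d) (hr d)]
    rw [hfun (r a) (r a) (r b) (r b) (r (c * d)) (r c * r d) a b (c * d) (hr a) (hr a) (hr b) (hr b)
      (hr _) (rel_mul _ _ _ _ (hr c) (hr d))]
    exact h0
  obtain ⟨B, hB, hB2⟩ := hOPN p G hp hG U hUo A hA hcard hsmU _ hLC hcoc
  refine ⟨fun v w => B ⟨v, hHU v⟩ ⟨w, hHU w⟩, ?_, ?_⟩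
  · unfold LC2 at hB ⊢
    have hc : Continuous (fun x : H × H => ((⟨x.1, hHU x.1⟩, ⟨x.2, hHU x.2⟩) : U × U)) := by
      fun_prop
    exact hB.comp_continuous hc
  · intro a b c
    have h1 := hB2 ⟨a, hHU a⟩ ⟨b, hHU b⟩ ⟨c, hHU c⟩
    beta_reduce at h1
    rw [hfun _ a _ b _ c _ _ _ (hr ⟨a, hHU a⟩) (rel_self a) (hr ⟨b, hHU b⟩) (rel_self b)
      (hr ⟨c, hHU c⟩) (rel_self c)] at h1
    rw [h1]
    unfold d2
    rw [hsmul, hact (r ⟨a, hHU a⟩) a ⟨a, hHU a⟩ (hr _) (rel_self a)]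
    rfl

end Pool.Agent.PP2
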